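import Pool.Agent.H95.ESL.Stmts

/-!
Rows TWN and ROT of the board esl (MP_3ddf05_nt).
-/

set_option autoImplicit false

namespace ESL
open Finset ESP

theorem twn_ne {p : ℕ} [Fact p.Prime] (hp : 5 ≤ p) : (2 : ZMod p) ≠ 0 := by
  intro h
  have h1 : ((2 : ℕ) : ZMod p) = 0 := by exact_mod_cast h
  rw [ZMod.natCast_eq_zero_iff] at h1
  have := Nat.le_of_dvd (by norm_num) h1
  omega

theorem twn_card {p : ℕ} [Fact p.Prime] (hp : 5 ≤ p) (g : ZMod p → ZMod p) :
    ((Nat.card {v : ZMod p × ZMod p // v.2 ^ 2 = g v.1} : ℕ) : ℤ) =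
      ∑ x : ZMod p, (quadraticChar (ZMod p) (g x) + 1) := by
  classical
  have hc : ringChar (ZMod p) ≠ 2 := by
    rw [ZMod.ringChar_zmod_n]
    omega
  rw [Nat.card_eq_fintype_card, Fintype.card_subtype, Finset.card_filter, Fintype.sum_prod_type]
  push_cast
  refine Finset.sum_congr rfl fun x _ => ?_
  rw [← quadraticChar_card_sqrts hc (g x), ← Finset.natCast_card_filter]
  congr 2
  ext y
  simp

theorem twn_thm : S_TWN := by
  intro p _ hp a b d hd
  have hd0 : d ≠ 0 := by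
    rintro rfl
    exact hd ⟨0, by simp⟩
  have h1 := twn_card hp (fun x => x ^ 3 + a * x + b)
  have h2 := twn_card hp (fun x => x ^ 3 + a * d ^ 2 * x + b * d ^ 3)
  have h3 : ∑ x : ZMod p, (quadraticChar (ZMod p) (x ^ 3 + a * d ^ 2 * x + b * d ^ 3) + 1) =
      ∑ x : ZMod p, (-(quadraticChar (ZMod p) (x ^ 3 + a * x + b)) + 1) := by
    rw [← Equiv.sum_comp (Equiv.mulLeft₀ d hd0)
      (fun x => quadraticChar (ZMod p) (x ^ 3 + a * d ^ 2 * x + b * d ^ 3) + 1)]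
    refine Finset.sum_congr rfl fun x _ => ?_
    rw [Equiv.mulLeft₀_apply]
    have h4 : (d * x) ^ 3 + a * d ^ 2 * (d * x) + b * d ^ 3 = d ^ 2 * (d * (x ^ 3 + a * x + b)) := by
      ring
    rw [h4, map_mul, map_mul, quadraticChar_sq_one' hd0,
      (quadraticChar_neg_one_iff_not_isSquare (F := ZMod p)).2 hd]
    ring
  have h5 : ((aff a b : ℕ) : ℤ) + ((aff (a * d ^ 2) (b * d ^ 3) : ℕ) : ℤ) = 2 * p := by
    unfold aff
    rw [h1, h2, h3, ← Finset.sum_add_distrib]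
    have h6 : ∀ x : ZMod p, quadraticChar (ZMod p) (x ^ 3 + a * x + b) + 1 +
        (-(quadraticChar (ZMod p) (x ^ 3 + a * x + b)) + 1) = 2 := fun x => by ring
    rw [Finset.sum_congr rfl fun x _ => h6 x, Finset.sum_const, Finset.card_univ, ZMod.card]
    simp [mul_comm]
  exact_mod_cast h5

theorem rot_thm : S_ROT := by
  intro p _ hp a b δ x₀ hδ h1 h2
  have h20 := twn_ne hp
  have h3 : (-3 * x₀ ^ 2 - 4 * a) * (3 * x₀ ^ 2 + a) ^ 2 = δ ^ 2 := by
    rw [← h1]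
    have hb : b = -x₀ ^ 3 - a * x₀ := by linear_combination h2
    rw [hb]
    ring
  have hm : 3 * x₀ ^ 2 + a ≠ 0 := by
    intro h
    rw [h] at h3
    apply hδ
    have : δ ^ 2 = 0 := by rw [← h3]; ring
    exact pow_eq_zero_iff (two_ne_zero) |>.1 this
  obtain ⟨s, hs⟩ : ∃ s : ZMod p, s = δ / (3 * x₀ ^ 2 + a) := ⟨_, rfl⟩
  have hs2 : s ^ 2 = -3 * x₀ ^ 2 - 4 * a := by
    rw [hs, div_pow, ← h3]
    field_simp
  have hs0 : s ≠ 0 := by
    rw [hs]
    exact div_ne_zero hδ hm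
  have key : (x₀ - (-x₀ + s) / 2) * (x₀ - (-x₀ - s) / 2) = 3 * x₀ ^ 2 + a := by
    have h4 : (x₀ - (-x₀ + s) / 2) * (x₀ - (-x₀ - s) / 2) = (9 * x₀ ^ 2 - s ^ 2) / (2 * 2) := by
      field_simp
      ring
    rw [h4, hs2]
    field_simp
    ring
  refine ⟨x₀, (-x₀ + s) / 2, (-x₀ - s) / 2, ?_, ?_, ?_, ?_⟩
  · intro h
    apply hm
    rw [← key, ← h]
    ring
  · intro h
    apply hm
    rw [← key, ← h]
    ring
  · intro h
    apply hs0
    have h5 : (-x₀ + s) / 2 - (-x₀ - s) / 2 = s := by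
      field_simp
      ring
    rw [← h5, h, sub_self]
  · intro x
    have h6 : (x - (-x₀ + s) / 2) * (x - (-x₀ - s) / 2) = x ^ 2 + x₀ * x + (x₀ ^ 2 + a) := by
      have h7 : (x - (-x₀ + s) / 2) * (x - (-x₀ - s) / 2) =
          ((2 * x + x₀) ^ 2 - s ^ 2) / (2 * 2) := by
        field_simp
        ring
      rw [h7, hs2]
      field_simp
      ring
    rw [mul_assoc, h6]
    linear_combination h2

end ESL
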